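import Pool.Agent.Lib.MP_abd978_an.UN.Interfaces
import Pool.Agent.Lib.MP_abd978_an.H1.Cacc
import Pool.Agent.Lib.MP_abd978_an.H42.Cont
import Pool.Agent.Lib.MP_abd978_an.Weak

/-!
# Project UNW, module STAB (helper92): stability of weak equations under uniform convergence
-/

set_option autoImplicit false

open MeasureTheory Metric Set Filter Topology ContDiff
open scoped Gradient RealInnerProductSpace NNReal ENNReal Manifold

namespace Pool.Agent.Lib.MP_abd978_an.UN.H92

open Pool.Agent.Lib.MP_abd978_an.H1 (young comp_cont cont_deriv int_of_on grad_pow)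

/-- the Caccioppoli inequality with a constant which depends on `p, α, β` only -/
theorem caccU (hW : WeakStatement) (hI : IntgStatement) (n : ℕ) (p α β : ℝ) (hp : 1 < p)
    (hα : 0 < α) (hαβ : α ≤ β) : ∃ C : ℝ, 0 < C ∧ ∀ (μ : Measure (E n))
    (a : E n → E n → E n), Op p μ a α β → ∀ (D : Set (E n)) (u : E n → ℝ) (v : E n → E n)
    (c d : ℝ) (Θ : ℝ → ℝ) (η : E n → ℝ), BSol μ p a D u v c d → SmoothNear Θ c d →
    (∀ t ∈ Icc c d, 0 < deriv Θ t) → Test D η → (∀ x, η x ∈ Icc (0 : ℝ) 1) →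
    ∫ x, η x ^ ⌈p⌉₊ * (deriv Θ (u x) * ‖v x‖ ^ p) ∂μ ≤
      C * ∫ x, |Θ (u x)| ^ p * deriv Θ (u x) ^ (1 - p) * ‖∇ η x‖ ^ p ∂μ := by
  have hβ : 0 < β := hα.trans_le hαβ
  set m := ⌈p⌉₊ with hm
  have hmp : p ≤ m := Nat.le_ceil p
  have hm1 : 1 ≤ m := Nat.one_le_iff_ne_zero.2 (by
    intro h0
    rw [h0] at hmp
    simp at hmp
    linarith)
  have hmr : (0:ℝ) < m := by
    have : (1:ℝ) ≤ m := by exact_mod_cast hm1
    linarith
  set l := 2 * (m * β) / α with hl
  have hl0 : 0 < l := by positivity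
  refine ⟨l ^ p, by positivity, ?_⟩
  intro μ a hop D u v c d Θ η hs hΘ hΘ' hη hη1
  have := hop.lf
  have hpow := Pool.Agent.Lib.MP_abd978_an.H1.Test.pow hη hm1
  have hDm : MeasurableSet D := hs.isOpen.measurableSet
  have hw := hW n p μ a α β D u v c d Θ _ hop hs hΘ hpow
  obtain ⟨hc1, hc2⟩ := cont_deriv hΘ
  have hum : AEStronglyMeasurable u (μ.restrict D) := hs.sob.1.1
  have hv : MemLp v (ENNReal.ofReal p) (μ.restrict D) := hs.sob.2.1
  have hη0 : ∀ x, x ∉ D → η x = 0 := fun x hx =>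
    image_eq_zero_of_notMem_tsupport fun h => hx (hη.2.2 h)
  have hgη0 : ∀ x, x ∉ D → ∇ η x = 0 := fun x hx =>
    grad_eq_zero_of_notMem fun h => hx (hη.2.2 h)
  have hgp0 : ∀ x, x ∉ D → ∇ (fun x => η x ^ m) x = 0 := fun x hx =>
    grad_eq_zero_of_notMem fun h => hx (hpow.2.2 h)
  obtain ⟨m1, K1, hK1, b1⟩ := comp_cont hc1 hum hs.mem
  obtain ⟨m2, K2, hK2, b2⟩ := comp_cont hc2 hum hs.mem
  have hηc : Continuous fun x => η x ^ m := hη.1.continuous.pow m
  have hηb : ∀ x, |η x ^ m| ≤ 1 := fun x => by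
    rw [abs_of_nonneg (pow_nonneg (hη1 x).1 m)]
    exact pow_le_one₀ (hη1 x).1 (hη1 x).2
  -- integrability of the two terms
  have i1 : Integrable (fun x => Θ (u x) * ⟪a x (v x), ∇ (fun x => η x ^ m) x⟫) μ := by
    apply int_of_on (D := D)
    · have h1 := (hI n p μ (μ.restrict D) a α β v (fun x => ∇ (fun x => η x ^ m) x) hop hv
        ((hpow.memLp_grad (μ := μ) _).restrict D)).1
      exact h1.bdd_mul m1 (Eventually.of_forall b1)
    · intro x hx
      rw [hgp0 x hx, inner_zero_right, mul_zero]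
  have i2 : Integrable (fun x => η x ^ m * deriv Θ (u x) * ⟪a x (v x), v x⟫) μ := by
    apply int_of_on (D := D)
    · have h1 := (hI n p μ (μ.restrict D) a α β v v hop hv hv).1
      refine h1.bdd_mul (hηc.aestronglyMeasurable.mul m2) (c := K2)
        (Eventually.of_forall fun x => ?_)
      rw [norm_mul]
      calc ‖η x ^ m‖ * ‖deriv Θ (u x)‖ ≤ 1 * K2 :=
            mul_le_mul (hηb x) (b2 x) (norm_nonneg _) zero_le_one
        _ = K2 := one_mul _
    · intro x hx
      rw [hη0 x hx, zero_pow (by omega)]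
      ring
  have i3 : Integrable (fun x => η x ^ m * (deriv Θ (u x) * ‖v x‖ ^ p)) μ := by
    apply int_of_on (D := D)
    · have h1 := hv.integrable_norm_rpow (by
        intro h0
        have := one_le_ofReal hp
        rw [h0] at this
        simp at this) ENNReal.ofReal_ne_top
      rw [ENNReal.toReal_ofReal (by linarith)] at h1
      have h2 : Integrable (fun x => (η x ^ m * deriv Θ (u x)) * ‖v x‖ ^ p) (μ.restrict D) := by
        refine h1.bdd_mul (hηc.aestronglyMeasurable.mul m2) (c := K2)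
          (Eventually.of_forall fun x => ?_)
        rw [norm_mul]
        calc ‖η x ^ m‖ * ‖deriv Θ (u x)‖ ≤ 1 * K2 :=
              mul_le_mul (hηb x) (b2 x) (norm_nonneg _) zero_le_one
          _ = K2 := one_mul _
      refine h2.congr (Eventually.of_forall fun x => ?_)
      show η x ^ m * deriv Θ (u x) * ‖v x‖ ^ p = η x ^ m * (deriv Θ (u x) * ‖v x‖ ^ p)
      ring
    · intro x hx
      rw [hη0 x hx, zero_pow (by omega)]
      ring
  have i4 : Integrable (fun x => |Θ (u x)| ^ p * deriv Θ (u x) ^ (1 - p) * ‖∇ η x‖ ^ p) μ := by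
    apply int_of_on (D := D)
    · have hF : ContinuousOn (fun t => |Θ t| ^ p * deriv Θ t ^ (1 - p)) (Icc c d) := by
        apply ContinuousOn.mul
        · exact hc1.abs.rpow_const fun t _ => Or.inr (by linarith)
        · exact hc2.rpow_const fun t ht => Or.inl (hΘ' t ht).ne'
      obtain ⟨m3, K3, hK3, b3⟩ := comp_cont hF hum hs.mem
      have h1 : Integrable (fun x => ‖∇ η x‖ ^ p) (μ.restrict D) := by
        have h2 := (hη.memLp_grad (μ := μ) (ENNReal.ofReal p)).integrable_norm_rpow (by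
          intro h0
          have := one_le_ofReal hp
          rw [h0] at this
          simp at this) ENNReal.ofReal_ne_top
        rw [ENNReal.toReal_ofReal (by linarith)] at h2
        exact h2.restrict
      exact h1.bdd_mul m3 (Eventually.of_forall b3)
    · intro x hx
      rw [hgη0 x hx, norm_zero, Real.zero_rpow (by linarith), mul_zero]
  -- the equation
  rw [integral_add i1 i2] at hw
  have h1 : α * ∫ x, η x ^ m * (deriv Θ (u x) * ‖v x‖ ^ p) ∂μ ≤
      ∫ x, η x ^ m * deriv Θ (u x) * ⟪a x (v x), v x⟫ ∂μ := by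
    rw [← integral_const_mul]
    apply integral_mono (i3.const_mul α) i2
    intro x
    have h2 := hop.ell x (v x)
    have h3 : 0 ≤ η x ^ m * deriv Θ (u x) :=
      mul_nonneg (pow_nonneg (hη1 x).1 m) (hΘ' _ (hs.mem x)).le
    calc α * (η x ^ m * (deriv Θ (u x) * ‖v x‖ ^ p))
        = η x ^ m * deriv Θ (u x) * (α * ‖v x‖ ^ p) := by ring
      _ ≤ _ := mul_le_mul_of_nonneg_left h2 h3
  have h2 : -∫ x, Θ (u x) * ⟪a x (v x), ∇ (fun x => η x ^ m) x⟫ ∂μ ≤
      α / 2 * (∫ x, η x ^ m * (deriv Θ (u x) * ‖v x‖ ^ p) ∂μ) +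
        α / 2 * (l ^ p * ∫ x, |Θ (u x)| ^ p * deriv Θ (u x) ^ (1 - p) * ‖∇ η x‖ ^ p ∂μ) := by
    rw [← integral_neg, ← integral_const_mul, ← integral_const_mul, ← integral_const_mul,
      ← integral_add (i3.const_mul _) ((i4.const_mul _).const_mul _)]
    apply integral_mono i1.neg ((i3.const_mul _).add ((i4.const_mul _).const_mul _))
    intro x
    have h3 : |⟪a x (v x), ∇ (fun x => η x ^ m) x⟫| ≤
        β * ‖v x‖ ^ (p - 1) * (m * η x ^ (m - 1) * ‖∇ η x‖) := by
      refine (abs_real_inner_le_norm _ _).trans ?_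
      rw [grad_pow hη, norm_smul, Real.norm_eq_abs,
        abs_of_nonneg (mul_nonneg hmr.le (pow_nonneg (hη1 x).1 _))]
      exact mul_le_mul_of_nonneg_right (hop.bdd x (v x))
        (mul_nonneg (mul_nonneg hmr.le (pow_nonneg (hη1 x).1 _)) (norm_nonneg _))
    have h4 := young hp hα hβ hm1 hmp (hη1 x).1 (hη1 x).2 (norm_nonneg (v x))
      (abs_nonneg (Θ (u x))) (norm_nonneg (∇ η x)) (hΘ' _ (hs.mem x))
    refine le_trans ?_ h4
    calc -(Θ (u x) * ⟪a x (v x), ∇ (fun x => η x ^ m) x⟫)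
        ≤ |Θ (u x) * ⟪a x (v x), ∇ (fun x => η x ^ m) x⟫| := neg_le_abs _
      _ = |Θ (u x)| * |⟪a x (v x), ∇ (fun x => η x ^ m) x⟫| := abs_mul _ _
      _ ≤ |Θ (u x)| * (β * ‖v x‖ ^ (p - 1) * (m * η x ^ (m - 1) * ‖∇ η x‖)) :=
        mul_le_mul_of_nonneg_left h3 (abs_nonneg _)
      _ = _ := by ring
  set I := ∫ x, η x ^ m * (deriv Θ (u x) * ‖v x‖ ^ p) ∂μ
  set J := ∫ x, |Θ (u x)| ^ p * deriv Θ (u x) ^ (1 - p) * ‖∇ η x‖ ^ p ∂μ
  have h5 : α / 2 * I ≤ α / 2 * (l ^ p * J) := by linarith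
  exact le_of_mul_le_mul_left h5 (by linarith)


/-! ### The operators -/

theorem op_scale {n : ℕ} {p : ℝ} {b : E n → E n → E n} {α β : ℝ} (x₀ : E n) (r : ℝ)
    (h : Op p volume b α β) : Op p volume (fun y ξ => b (x₀ + r • y) ξ) α β := by
  have h1 : Measurable fun q : E n × E n => ((x₀ + r • q.1, q.2) : E n × E n) := by fun_prop
  exact ⟨h.toGeo, h.hα, h.hαβ, h.meas.comp h1, fun x => h.cont _, fun x ξ => h.ell _ ξ,
    fun x ξ => h.bdd _ ξ, fun x ξ η hne => h.mono _ ξ η hne, fun x l ξ hl => h.hom _ l ξ hl,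
    fun x ξ => h.neg _ ξ⟩

theorem op_const {n : ℕ} {p : ℝ} {b : E n → E n → E n} {α β : ℝ} (x₀ : E n)
    (h : Op p volume b α β) : Op p volume (fun _ ξ => b x₀ ξ) α β := by
  have h1 := op_scale x₀ 0 h
  simpa using h1

/-! ### Integrals of gradients -/

theorem integral_grad_test {n : ℕ} {D : Set (E n)} {ψ : E n → ℝ} (h : Test D ψ) (e : E n) :
    ∫ x, ⟪∇ ψ x, e⟫ = 0 := by
  have h1 : ∀ x, ⟪∇ ψ x, e⟫ = fderiv ℝ ψ x e := fun x => by
    rw [grad_eq, InnerProductSpace.toDual_symm_apply]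
  have hI : Integrable fun x => fderiv ℝ ψ x e := by
    have h2 : Integrable fun x => ⟪∇ ψ x, e⟫ :=
      ((continuous_grad h.1).integrable_of_hasCompactSupport (hasCompactSupport_grad h)).inner_const e
    exact h2.congr (Eventually.of_forall h1)
  have hJ : Integrable ψ := h.1.continuous.integrable_of_hasCompactSupport h.2.1
  have hd : Differentiable ℝ ψ := h.1.differentiable (by simp)
  have h3 := integral_mul_fderiv_eq_neg_fderiv_mul_of_integrable (μ := (volume : Measure (E n)))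
    (𝕜 := ℝ) (f := fun _ : E n => (1 : ℝ)) (g := ψ) (v := e) (by simp) (by simpa using hI)
    (by simpa using hJ) (fun x _ => by fun_prop) (fun x _ => hd x)
  simp only [one_mul, fderiv_fun_const, Pi.zero_apply, _root_.zero_apply, zero_mul,
    integral_zero, neg_zero] at h3
  rw [← h3]
  exact integral_congr_ae (Eventually.of_forall h1)

theorem h0_integral {n : ℕ} {p : ℝ} {D : Set (E n)} {R : ℝ} {u : E n → ℝ} {v : E n → E n}
    (hp : 1 < p) (hD : IsOpen D) (hR : D ⊆ ball 0 R) (h : H0 volume p D u v) (e : E n) :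
    ∫ x, ⟪v x, e⟫ = 0 := by
  obtain ⟨h1, h2, ψ, h3, h4, h5⟩ := h
  have hv0 : ∀ᵐ x : E n, x ∉ ball (0 : E n) R → v x = 0 := by
    have h6 := (H0.ae_eq_zero hp hD.measurableSet ⟨h1, h2, ψ, h3, h4, h5⟩).2
    rw [ae_restrict_iff' hD.measurableSet.compl] at h6
    filter_upwards [h6] with x hx hxR
    exact hx fun hxD => hxR (hR hxD)
  have hψ0 : ∀ i x, x ∉ ball (0 : E n) R → ∇ (ψ i) x = 0 := fun i x hx =>
    grad_eq_zero_of_notMem fun h7 => hx (hR ((h3 i).2.2 h7))
  have : IsFiniteMeasure ((volume : Measure (E n)).restrict (ball 0 R)) :=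
    ⟨by rw [Measure.restrict_apply_univ]; exact measure_ball_lt_top⟩
  have h8 : ∀ w : E n → E n, (∀ᵐ x : E n, x ∉ ball (0 : E n) R → w x = 0) →
      ∫ x, ⟪w x, e⟫ = ∫ x in ball 0 R, ⟪w x, e⟫ := by
    intro w hw
    symm
    refine setIntegral_eq_integral_of_ae_compl_eq_zero ?_
    filter_upwards [hw] with x hx hxR
    rw [hx hxR, inner_zero_left]
  have hL1 : ∀ w : E n → E n, MemLp w (ENNReal.ofReal p) volume →
      Integrable w (volume.restrict (ball 0 R)) := fun w hw =>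
    (hw.restrict _).integrable (one_le_ofReal hp)
  have h9 : Tendsto (fun i => ∫ x in ball 0 R, ⟪∇ (ψ i) x, e⟫) atTop
      (𝓝 (∫ x in ball 0 R, ⟪v x, e⟫)) := by
    refine tendsto_integral_of_L1' _ ((hL1 v h2).inner_const e).1
      (Eventually.of_forall fun i => (hL1 _ ((h3 i).memLp_grad _)).inner_const e) ?_
    have h10 : ∀ i, eLpNorm ((fun x => ⟪∇ (ψ i) x, e⟫) - fun x => ⟪v x, e⟫) 1
        (volume.restrict (ball 0 R)) ≤ ENNReal.ofReal ‖e‖ *
          (eLpNorm (fun x => ∇ (ψ i) x - v x) (ENNReal.ofReal p) volume *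
            (volume.restrict (ball (0 : E n) R)) univ ^
              (1 / (1 : ℝ≥0∞).toReal - 1 / (ENNReal.ofReal p).toReal)) := by
      intro i
      have h11 : eLpNorm ((fun x => ⟪∇ (ψ i) x, e⟫) - fun x => ⟪v x, e⟫) 1
          (volume.restrict (ball 0 R)) ≤ ENNReal.ofReal ‖e‖ *
            eLpNorm (fun x => ∇ (ψ i) x - v x) 1 (volume.restrict (ball 0 R)) := by
        refine eLpNorm_le_mul_eLpNorm_of_ae_le_mul (Eventually.of_forall fun x => ?_) _
        show ‖⟪∇ (ψ i) x, e⟫ - ⟪v x, e⟫‖ ≤ ‖e‖ * ‖∇ (ψ i) x - v x‖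
        rw [← inner_sub_left, mul_comm]
        exact norm_inner_le_norm _ _
      refine h11.trans (mul_le_mul_right ?_ _)
      refine (eLpNorm_le_eLpNorm_mul_rpow_measure_univ (one_le_ofReal hp)
        (((continuous_grad (h3 i).1).aestronglyMeasurable.sub h2.1).mono_measure
          Measure.restrict_le_self)).trans ?_
      exact mul_le_mul_left (eLpNorm_mono_measure _ Measure.restrict_le_self) _
    refine tendsto_of_tendsto_of_tendsto_of_le_of_le tendsto_const_nhds ?_ (fun _ => bot_le) h10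
    have hfin : (volume.restrict (ball (0 : E n) R)) univ ^
        (1 / (1 : ℝ≥0∞).toReal - 1 / (ENNReal.ofReal p).toReal) ≠ ⊤ := by
      apply ENNReal.rpow_ne_top_of_nonneg _ (measure_ne_top _ _)
      rw [ENNReal.toReal_ofReal (by linarith), ENNReal.toReal_one, sub_nonneg, div_one,
        div_le_one (by linarith)]
      exact hp.le
    have h12 := ENNReal.Tendsto.mul_const (b := (volume.restrict (ball (0 : E n) R)) univ ^
        (1 / (1 : ℝ≥0∞).toReal - 1 / (ENNReal.ofReal p).toReal)) h5 (Or.inr hfin)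
    rw [zero_mul] at h12
    have h13 := ENNReal.Tendsto.const_mul (a := ENNReal.ofReal ‖e‖) h12
      (Or.inr ENNReal.ofReal_ne_top)
    rwa [mul_zero] at h13
  rw [h8 v hv0]
  have h14 : (fun i => ∫ x in ball 0 R, ⟪∇ (ψ i) x, e⟫) = fun _ => (0 : ℝ) := by
    funext i
    rw [← h8 _ (Eventually.of_forall (hψ0 i)), integral_grad_test (h3 i)]
  rw [h14] at h9
  exact (tendsto_nhds_unique h9 tendsto_const_nhds)

/-! ### Products with test functions -/

theorem lipC_of_contDiff {n : ℕ} {D : Set (E n)} {θ w : E n → ℝ} (hθ : Test D θ)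
    (hw : ContDiff ℝ 1 w) : LipC D fun x => -(θ x * w x) := by
  have h1 : ContDiff ℝ 1 fun x => -(θ x * w x) := ((hθ.1.of_le (by simp)).mul hw).neg
  have h2 : Function.support (fun x => -(θ x * w x)) ⊆ tsupport θ := by
    intro x hx
    by_contra hcon
    apply hx
    show -(θ x * w x) = 0
    rw [image_eq_zero_of_notMem_tsupport hcon]
    ring
  have h3 : tsupport (fun x => -(θ x * w x)) ⊆ tsupport θ :=
    closure_minimal h2 (isClosed_tsupport θ)
  have h4 : HasCompactSupport fun x => -(θ x * w x) :=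
    HasCompactSupport.of_support_subset_isCompact hθ.2.1 h2
  refine ⟨?_, h4, h3.trans hθ.2.2⟩
  obtain ⟨K, hK⟩ := h1.lipschitzWith_of_hasCompactSupport h4 (by simp)
  exact ⟨K, hK⟩

theorem h0mul {n : ℕ} {p : ℝ} {a : E n → E n → E n} {D : Set (E n)} {v' θ w : E n → ℝ}
    {V : E n → E n} {c d : ℝ} (hC : ChainStatement) (hL : LsobStatement) (hp : 1 < p)
    (hB : BSol volume p a D v' V c d) (hθ : Test D θ) (hw : ContDiff ℝ 1 w) :
    H0 volume p D (fun x => θ x * (v' x - w x))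
      (fun x => (v' x - w x) • ∇ θ x + θ x • (V x - ∇ w x)) := by
  have h1 := hC n volume p D v' V c d (fun t => t) θ hp inferInstance hB.isOpen hB.sob hB.mem
    ⟨univ, isOpen_univ, subset_univ _, contDiff_id.contDiffOn⟩ hθ
  have h2 := hL n p D _ hp hB.isOpen (lipC_of_contDiff hθ hw)
  have h3 := h1.add hp h2
  have h4 : (fun x => θ x * v' x + -(θ x * w x)) = fun x => θ x * (v' x - w x) := by
    funext x
    ring
  have h5 : (fun x => v' x • ∇ θ x + (θ x * deriv (fun t : ℝ => t) (v' x)) • V x +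
      ∇ (fun x => -(θ x * w x)) x) =
      fun x => (v' x - w x) • ∇ θ x + θ x • (V x - ∇ w x) := by
    funext x
    have h6 : DifferentiableAt ℝ θ x := hθ.1.differentiable (by simp) x
    have h7 : DifferentiableAt ℝ w x := hw.differentiable (by simp) x
    have h8 : ∇ (fun x => -(θ x * w x)) x = -(θ x • ∇ w x + w x • ∇ θ x) := by
      have h9 := (h6.hasFDerivAt.mul h7.hasFDerivAt).neg
      have h10 : HasFDerivAt (fun y => -(θ y * w y))
        (-(θ x • fderiv ℝ w x + w x • fderiv ℝ θ x)) x := h9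
      rw [grad_of_hasFDerivAt h10, map_neg, map_add, map_smulₛₗ, map_smulₛₗ]
      rfl
    have h11 : deriv (fun t : ℝ => t) (v' x) = 1 := by simp
    rw [h8, h11, mul_one, sub_smul, smul_sub]
    abel
  rw [h4, h5] at h3
  exact h3

/-! ### Elementary inequalities -/

theorem rpow_add_le {p x y : ℝ} (hp : 0 < p) (hx : 0 ≤ x) (hy : 0 ≤ y) :
    (x + y) ^ p ≤ 2 ^ p * (x ^ p + y ^ p) := by
  have h1 : 0 ≤ x ^ p := Real.rpow_nonneg hx _
  have h2 : 0 ≤ y ^ p := Real.rpow_nonneg hy _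
  have h3 : (0 : ℝ) < 2 ^ p := by positivity
  rcases le_total x y with h | h
  · calc (x + y) ^ p ≤ (2 * y) ^ p := Real.rpow_le_rpow (by positivity) (by linarith) hp.le
      _ = 2 ^ p * y ^ p := Real.mul_rpow (by norm_num) hy
      _ ≤ _ := by nlinarith
  · calc (x + y) ^ p ≤ (2 * x) ^ p := Real.rpow_le_rpow (by positivity) (by linarith) hp.le
      _ = 2 ^ p * x ^ p := Real.mul_rpow (by norm_num) hx
      _ ≤ _ := by nlinarith

theorem le_one_add_rpow {p x : ℝ} (hp : 1 < p) (hx : 0 ≤ x) : x ≤ 1 + x ^ p := by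
  rcases le_total x 1 with h | h
  · have := Real.rpow_nonneg hx p
    linarith
  · have h1 : x ^ (1 : ℝ) ≤ x ^ p := Real.rpow_le_rpow_of_exponent_le h hp.le
    rw [Real.rpow_one] at h1
    linarith

theorem rpow_pred_le {p x : ℝ} (hp : 1 < p) (hx : 0 ≤ x) : x ^ (p - 1) ≤ 1 + x ^ p := by
  rcases le_total x 1 with h | h
  · have h1 : x ^ (p - 1) ≤ 1 := Real.rpow_le_one hx h (by linarith)
    have := Real.rpow_nonneg hx p
    linarith
  · have h1 : x ^ (p - 1) ≤ x ^ p := Real.rpow_le_rpow_of_exponent_le h (by linarith)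
    linarith

theorem linear_le {p K l : ℝ} (hp : 1 < p) (hK : 0 ≤ K) (hl : 0 < l) :
    ∃ C : ℝ, 0 ≤ C ∧ ∀ x : ℝ, 0 ≤ x → K * x ≤ l * x ^ p + C := by
  refine ⟨K * (K / l) ^ (1 / (p - 1)), by positivity, fun x hx => ?_⟩
  have hp1 : 0 < p - 1 := by linarith
  have h0 : 0 ≤ K / l := by positivity
  rcases le_total x ((K / l) ^ (1 / (p - 1))) with h | h
  · have h1 : 0 ≤ l * x ^ p := by positivity
    have h2 : K * x ≤ K * (K / l) ^ (1 / (p - 1)) := mul_le_mul_of_nonneg_left h hK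
    linarith
  · have h1 : K / l ≤ x ^ (p - 1) := by
      have h2 := Real.rpow_le_rpow (Real.rpow_nonneg h0 _) h hp1.le
      rwa [← Real.rpow_mul h0, one_div_mul_cancel hp1.ne', Real.rpow_one] at h2
    have h3 : K ≤ l * x ^ (p - 1) := by
      rwa [div_le_iff₀ hl, mul_comm] at h1
    have h4 : x ^ p = x ^ (p - 1) * x := by
      rcases hx.eq_or_lt with h5 | h5
      · rw [← h5, Real.zero_rpow (by linarith), mul_zero]
      · rw [← Real.rpow_add_one h5.ne']
        congr 1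
        ring
    have h5 : 0 ≤ K * (K / l) ^ (1 / (p - 1)) := by positivity
    calc K * x ≤ l * x ^ (p - 1) * x := mul_le_mul_of_nonneg_right h3 hx
      _ = l * x ^ p := by rw [h4]; ring
      _ ≤ _ := by linarith

theorem continuous_grad1 {n : ℕ} {w : E n → ℝ} (h : ContDiff ℝ 1 w) :
    Continuous fun x => ∇ w x :=
  (InnerProductSpace.toDual ℝ (E n)).symm.continuous.comp (h.continuous_fderiv (by simp))

/-! ### The main estimate -/

theorem est (hC : ChainStatement) (hP : PairStatement) (hI : IntgStatement) (hL : LsobStatement)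
    {n : ℕ} {p α β : ℝ} {a : E n → E n → E n} (hop : Op p volume a α β) {D : Set (E n)}
    {v' : E n → ℝ} {V : E n → E n} {c d ρ R : ℝ} (hB : BSol volume p a D v' V c d)
    (hBD : closedBall 0 ρ ⊆ D) (hDR : D ⊆ ball 0 R) {v₀ φ ψ : E n → ℝ} {g a₀ : E n → E n}
    (hv₀ : ContDiff ℝ 1 v₀) (hφ : Test univ φ) (hψ : Test univ ψ)
    (hψ1 : ∀ x, ψ x ∈ Icc (0 : ℝ) 1) (hψs : tsupport ψ ⊆ closedBall 0 ρ)
    (hψφ : ∀ x, ψ x • ∇ φ x = ∇ φ x) (hφψ : ∀ x, φ x • ∇ ψ x = 0) {G : ℝ}
    (hG : ∀ x, ‖∇ ψ x‖ ≤ G) (hg : ContDiff ℝ ∞ g) (hgs : Function.support g ⊆ tsupport ψ)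
    (ha₀ : Continuous a₀) {t δ ε₁ ε₂ l Cl K₀ : ℝ} {A : Set (E n)} (hA : MeasurableSet A)
    (hδ : 0 ≤ δ) (hε₁ : 0 ≤ ε₁) (hε₂ : 0 ≤ ε₂) (hl : 0 ≤ l) (hCl : 0 ≤ Cl) (hG0 : 0 ≤ G)
    (h1 : ∀ x ∈ closedBall (0 : E n) ρ, |v' x - v₀ x| ≤ δ)
    (h2 : ∀ x, ‖ψ x • a₀ (∇ v₀ x + t • ∇ φ x) - g x‖ ≤ ε₁)
    (h3 : ∀ x ∈ closedBall (0 : E n) ρ, x ∉ A →
      ‖a x (∇ v₀ x + t • ∇ φ x) - a₀ (∇ v₀ x + t • ∇ φ x)‖ ≤ ε₂)
    (h4 : ∀ x ∈ closedBall (0 : E n) ρ,
      ‖a x (∇ v₀ x + t • ∇ φ x) - a₀ (∇ v₀ x + t • ∇ φ x)‖ ≤ K₀)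
    (h5 : ∀ x : ℝ, 0 ≤ x → K₀ * x ≤ l * x ^ p + Cl) :
    -t * ∫ x, ⟪a₀ (∇ v₀ x + t • ∇ φ x), ∇ φ x⟫ ≤
      δ * (∑ j, ∫ x, ‖∇ (fun y => g y j) x‖) +
        ((δ * β * G + (1 + 2 ^ p) * (ε₁ + ε₂ + l)) *
          (∫ x in closedBall 0 ρ, (1 + ‖V x‖ ^ p + ‖∇ v₀ x + t • ∇ φ x‖ ^ p + ‖∇ v₀ x‖ ^ p)) +
          Cl * volume.real (A ∩ closedBall 0 ρ)) := by
  have hp := hop.hp
  have hβ : 0 ≤ β := (hop.hα.le).trans hop.hαβ
  set B : Set (E n) := closedBall 0 ρ with hBdef
  have hBm : MeasurableSet B := isClosed_closedBall.measurableSet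
  have hfin : IsFiniteMeasure ((volume : Measure (E n)).restrict B) :=
    ⟨by rw [Measure.restrict_apply_univ]; exact measure_closedBall_lt_top⟩
  set W : E n → E n := fun x => ∇ v₀ x + t • ∇ φ x with hWdef
  have hWc : Continuous W :=
    (continuous_grad1 hv₀).add ((continuous_grad hφ.1).const_smul t)
  have hgr : ∀ x, ∇ (fun y => v₀ y + t * φ y) x = W x := by
    intro x
    have h6 : HasFDerivAt (fun y => v₀ y + t * φ y) (fderiv ℝ v₀ x + t • fderiv ℝ φ x) x :=
      (hv₀.differentiable (by simp) x).hasFDerivAt.add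
        ((hφ.1.differentiable (by simp) x).hasFDerivAt.const_mul t)
    rw [grad_of_hasFDerivAt h6, map_add, map_smulₛₗ]
    rfl
  have hψD : Test D ψ := ⟨hψ.1, hψ.2.1, hψs.trans hBD⟩
  have hVm : MemLp V (ENNReal.ofReal p) (volume.restrict B) :=
    hB.sob.2.1.mono_measure (Measure.restrict_mono hBD le_rfl)
  have hcont : ∀ w : E n → E n, Continuous w → MemLp w (ENNReal.ofReal p) (volume.restrict B) :=
    fun w hw => by
      obtain ⟨K, hK⟩ := (isCompact_closedBall (0 : E n) ρ).exists_bound_of_continuousOn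
        hw.continuousOn
      exact MemLp.of_bound hw.aestronglyMeasurable K
        ((ae_restrict_iff' hBm).2 (Eventually.of_forall hK))
  -- the tested equation
  have hH := h0mul (w := fun y => v₀ y + t * φ y) hC hL hp hB hψD
    (hv₀.add (contDiff_const.mul (hφ.1.of_le (by simp))))
  have hE := hP n p volume a α β D V _ _ hop hB.isOpen hB.sob.2.1 hB.eqn hH
  have hE1 : ∫ x in B, ⟪a x (V x), (v' x - (v₀ x + t * φ x)) • ∇ ψ x +
      ψ x • (V x - W x)⟫ = 0 := by
    rw [← hE]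
    rw [setIntegral_eq_integral_of_forall_compl_eq_zero]
    · refine integral_congr_ae (Eventually.of_forall fun x => ?_)
      simp only [hgr]
    · intro x hx
      have hx1 : x ∉ tsupport ψ := fun h => hx (hψs h)
      rw [grad_eq_zero_of_notMem hx1, image_eq_zero_of_notMem_tsupport hx1, zero_smul, smul_zero,
        add_zero, inner_zero_right]
  have hE2 : Integrable (fun x => ⟪a x (V x), (v' x - (v₀ x + t * φ x)) • ∇ ψ x +
      ψ x • (V x - W x)⟫) (volume.restrict B) := by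
    have h6 := (hI n p volume (volume.restrict B) a α β V _ hop hVm (hH.2.1.restrict B)).1
    refine h6.congr (Eventually.of_forall fun x => ?_)
    simp only [hgr]
  -- the smooth field
  have hgz : ∀ x, x ∉ tsupport ψ → g x = 0 := fun x hx => by
    by_contra hcon
    exact hx (hgs hcon)
  have hgj : ∀ j, Test D fun y => g y j := by
    intro j
    have hs1 : tsupport (fun y => g y j) ⊆ tsupport ψ := by
      refine closure_minimal (fun x hx => ?_) (isClosed_tsupport ψ)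
      by_contra hcon
      apply hx
      show g x j = 0
      rw [hgz x hcon]
      rfl
    refine ⟨?_, ?_, hs1.trans (hψs.trans hBD)⟩
    · exact (contDiff_piLp_apply (p := 2)).comp hg
    · exact IsCompact.of_isClosed_subset hψ.2.1 (isClosed_tsupport _) hs1
  have hVd : MemLp (fun x => V x - ∇ v₀ x) (ENNReal.ofReal p) (volume.restrict B) :=
    hVm.sub (hcont _ (continuous_grad1 hv₀))
  have hVi : Integrable (fun x => V x - ∇ v₀ x) (volume.restrict B) :=
    hVd.integrable (one_le_ofReal hp)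
  have hgi : Integrable (fun x => ⟪g x, V x - ∇ v₀ x⟫) (volume.restrict B) := by
    obtain ⟨K, hK⟩ := (isCompact_closedBall (0 : E n) ρ).exists_bound_of_continuousOn
      hg.continuous.continuousOn
    refine (hVi.norm.const_mul K).mono'
      (hg.continuous.aestronglyMeasurable.inner hVi.aestronglyMeasurable) ?_
    refine (ae_restrict_iff' hBm).2 (Eventually.of_forall fun x hx => ?_)
    exact (norm_inner_le_norm _ _).trans (mul_le_mul_of_nonneg_right (hK x hx) (norm_nonneg _))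
  have hF : -∫ x in B, ⟪g x, V x - ∇ v₀ x⟫ ≤ δ * ∑ j, ∫ x, ‖∇ (fun y => g y j) x‖ := by
    have h6 : ∀ j, Integrable (fun x => g x j * (V x - ∇ v₀ x) j) (volume.restrict B) := by
      intro j
      obtain ⟨K, hK⟩ := (isCompact_closedBall (0 : E n) ρ).exists_bound_of_continuousOn
        hg.continuous.continuousOn
      refine (hVi.norm.const_mul K).mono' ?_ ?_
      · refine AEStronglyMeasurable.mul (hgj j).1.continuous.aestronglyMeasurable ?_
        exact (Continuous.comp_aestronglyMeasurable (by fun_prop : Continuous fun y : E n => y j)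
          hVi.aestronglyMeasurable)
      · refine (ae_restrict_iff' hBm).2 (Eventually.of_forall fun x hx => ?_)
        rw [norm_mul]
        exact mul_le_mul ((PiLp.norm_apply_le (g x) j).trans (hK x hx))
          (PiLp.norm_apply_le _ j) (norm_nonneg _) ((norm_nonneg _).trans (hK x hx))
    have h7 : ∫ x in B, ⟪g x, V x - ∇ v₀ x⟫ = ∑ j, ∫ x in B, g x j * (V x - ∇ v₀ x) j := by
      rw [← integral_finsetSum _ fun j _ => h6 j]
      refine integral_congr_ae (Eventually.of_forall fun x => ?_)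
      simp only [PiLp.inner_apply]
      refine Finset.sum_congr rfl fun j _ => ?_
      simp [mul_comm]
    rw [h7, ← Finset.sum_neg_distrib, Finset.mul_sum]
    refine Finset.sum_le_sum fun j _ => ?_
    -- one coordinate
    have h8 := h0mul (w := v₀) hC hL hp hB (hgj j) hv₀
    have h9 := h0_integral hp hB.isOpen hDR h8 (EuclideanSpace.single j (1 : ℝ))
    have h10 : ∫ x in B, ((v' x - v₀ x) * (∇ (fun y => g y j) x) j +
        g x j * (V x - ∇ v₀ x) j) = 0 := by
      rw [← h9, setIntegral_eq_integral_of_forall_compl_eq_zero]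
      · refine integral_congr_ae (Eventually.of_forall fun x => ?_)
        show _ = ⟪_, _⟫
        rw [EuclideanSpace.inner_single_right]
        simp
      · intro x hx
        have hx1 : x ∉ tsupport ψ := fun h => hx (hψs h)
        have hx2 : x ∉ tsupport fun y => g y j := by
          intro hcon
          apply hx1
          refine closure_minimal (fun x hx => ?_) (isClosed_tsupport ψ) hcon
          by_contra hcon
          apply hx
          show g x j = 0
          rw [hgz x hcon]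
          rfl
        rw [grad_eq_zero_of_notMem hx2, hgz x hx1]
        simp
    have h11 : Integrable (fun x => ‖∇ (fun y => g y j) x‖) volume :=
      ((continuous_grad (hgj j).1).integrable_of_hasCompactSupport
        (hasCompactSupport_grad (hgj j))).norm
    have h12 : Integrable (fun x => (v' x - v₀ x) * (∇ (fun y => g y j) x) j)
        (volume.restrict B) := by
      refine (h11.restrict (s := B)).const_mul δ |>.mono' ?_ ?_
      · refine AEStronglyMeasurable.mul ?_ ?_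
        · exact ((hB.sob.1.1.mono_measure (Measure.restrict_mono hBD le_rfl))).sub
            hv₀.continuous.aestronglyMeasurable
        · exact (Continuous.comp_aestronglyMeasurable
            (by fun_prop : Continuous fun y : E n => y j)
            (continuous_grad (hgj j).1).aestronglyMeasurable)
      · refine (ae_restrict_iff' hBm).2 (Eventually.of_forall fun x hx => ?_)
        rw [norm_mul]
        exact mul_le_mul (h1 x hx) (PiLp.norm_apply_le _ j) (norm_nonneg _) hδ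
    rw [integral_add h12 (h6 j)] at h10
    have h13 : -∫ x in B, g x j * (V x - ∇ v₀ x) j =
        ∫ x in B, (v' x - v₀ x) * (∇ (fun y => g y j) x) j := by linarith
    rw [h13]
    calc ∫ x in B, (v' x - v₀ x) * (∇ (fun y => g y j) x) j
        ≤ ∫ x in B, δ * ‖∇ (fun y => g y j) x‖ := by
          refine integral_mono_ae h12 ((h11.restrict (s := B)).const_mul δ) ?_
          refine (ae_restrict_iff' hBm).2 (Eventually.of_forall fun x hx => ?_)
          refine (le_abs_self _).trans ?_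
          rw [abs_mul]
          exact mul_le_mul (h1 x hx) (PiLp.norm_apply_le (∇ (fun y => g y j) x) j) (abs_nonneg _) hδ
      _ = δ * ∫ x in B, ‖∇ (fun y => g y j) x‖ := integral_const_mul _ _
      _ ≤ δ * ∫ x, ‖∇ (fun y => g y j) x‖ :=
          mul_le_mul_of_nonneg_left (setIntegral_le_integral h11
            (Eventually.of_forall fun x => norm_nonneg _)) hδ
  -- the pointwise inequality
  set H : E n → ℝ := fun x => 1 + ‖V x‖ ^ p + ‖W x‖ ^ p + ‖∇ v₀ x‖ ^ p with hHdef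
  have hHi : Integrable H (volume.restrict B) := by
    have hp0 : ENNReal.ofReal p ≠ 0 := by
      intro h0
      have := one_le_ofReal hp
      rw [h0] at this
      simp at this
    have h6 : ∀ w : E n → E n, MemLp w (ENNReal.ofReal p) (volume.restrict B) →
        Integrable (fun x => ‖w x‖ ^ p) (volume.restrict B) := by
      intro w hw
      have h7 := hw.integrable_norm_rpow hp0 ENNReal.ofReal_ne_top
      rwa [ENNReal.toReal_ofReal (by linarith)] at h7
    exact (((integrable_const 1).add (h6 V hVm)).add (h6 W (hcont _ hWc))).add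
      (h6 _ (hcont _ (continuous_grad1 hv₀)))
  have hAi : Integrable (A.indicator fun _ => Cl) (volume.restrict B) :=
    (integrable_const Cl).indicator hA
  have hpt : ∀ x ∈ B, -t * ⟪a₀ (W x), ∇ φ x⟫ ≤
      ⟪a x (V x), (v' x - (v₀ x + t * φ x)) • ∇ ψ x + ψ x • (V x - W x)⟫ -
        ⟪g x, V x - ∇ v₀ x⟫ +
        ((δ * β * G + (1 + 2 ^ p) * (ε₁ + ε₂ + l)) * H x + A.indicator (fun _ => Cl) x) := by
    intro x hx
    have hψx := hψ1 x
    have nV : 0 ≤ ‖V x‖ ^ p := Real.rpow_nonneg (norm_nonneg _) _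
    have nW : 0 ≤ ‖W x‖ ^ p := Real.rpow_nonneg (norm_nonneg _) _
    have n0 : 0 ≤ ‖∇ v₀ x‖ ^ p := Real.rpow_nonneg (norm_nonneg _) _
    have hH1 : H x = 1 + ‖V x‖ ^ p + ‖W x‖ ^ p + ‖∇ v₀ x‖ ^ p := rfl
    have hH0 : 1 ≤ H x := by rw [hH1]; linarith
    have h2p : (0 : ℝ) < 2 ^ p := by positivity
    -- monotonicity
    have hm : 0 ≤ ψ x * ⟪a x (V x) - a x (W x), V x - W x⟫ := by
      refine mul_nonneg hψx.1 ?_
      by_cases hVW : V x = W x
      · rw [hVW]
        simp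
      · exact (hop.mono x _ _ hVW).le
    -- the boundary term
    have e1 : (v' x - (v₀ x + t * φ x)) • ∇ ψ x = (v' x - v₀ x) • ∇ ψ x := by
      have : (v' x - (v₀ x + t * φ x)) • ∇ ψ x =
          (v' x - v₀ x) • ∇ ψ x - t • (φ x • ∇ ψ x) := by
        rw [smul_smul, ← sub_smul]
        congr 1
        ring
      rw [this, hφψ x, smul_zero, sub_zero]
    have b1 : |(v' x - v₀ x) * ⟪a x (V x), ∇ ψ x⟫| ≤ δ * β * G * H x := by
      rw [abs_mul]
      have : |⟪a x (V x), ∇ ψ x⟫| ≤ (β * ‖V x‖ ^ (p - 1)) * G :=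
        (abs_real_inner_le_norm _ _).trans (mul_le_mul (hop.bdd x (V x)) (hG x) (norm_nonneg _)
          (mul_nonneg hβ (Real.rpow_nonneg (norm_nonneg _) _)))
      have h7 := rpow_pred_le hp (norm_nonneg (V x))
      calc |v' x - v₀ x| * |⟪a x (V x), ∇ ψ x⟫| ≤ δ * ((β * ‖V x‖ ^ (p - 1)) * G) :=
            mul_le_mul (h1 x hx) this (abs_nonneg _) hδ
        _ = δ * β * G * ‖V x‖ ^ (p - 1) := by ring
        _ ≤ δ * β * G * H x := by
            refine mul_le_mul_of_nonneg_left ?_ (by positivity)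
            rw [hH1]
            linarith
    -- the operators
    have xp : ‖V x - W x‖ ^ p ≤ 2 ^ p * H x := by
      calc ‖V x - W x‖ ^ p ≤ (‖V x‖ + ‖W x‖) ^ p :=
            Real.rpow_le_rpow (norm_nonneg _) (norm_sub_le _ _) (by linarith)
        _ ≤ 2 ^ p * (‖V x‖ ^ p + ‖W x‖ ^ p) :=
            rpow_add_le (by linarith) (norm_nonneg _) (norm_nonneg _)
        _ ≤ _ := by
            refine mul_le_mul_of_nonneg_left ?_ h2p.le
            rw [hH1]
            linarith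
    have yp : ‖V x - ∇ v₀ x‖ ^ p ≤ 2 ^ p * H x := by
      calc ‖V x - ∇ v₀ x‖ ^ p ≤ (‖V x‖ + ‖∇ v₀ x‖) ^ p :=
            Real.rpow_le_rpow (norm_nonneg _) (norm_sub_le _ _) (by linarith)
        _ ≤ 2 ^ p * (‖V x‖ ^ p + ‖∇ v₀ x‖ ^ p) :=
            rpow_add_le (by linarith) (norm_nonneg _) (norm_nonneg _)
        _ ≤ _ := by
            refine mul_le_mul_of_nonneg_left ?_ h2p.le
            rw [hH1]
            linarith
    have hV1 : ‖V x - W x‖ ≤ (1 + 2 ^ p) * H x := by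
      have := le_one_add_rpow hp (norm_nonneg (V x - W x))
      nlinarith
    have hV2 : ‖V x - ∇ v₀ x‖ ≤ (1 + 2 ^ p) * H x := by
      have := le_one_add_rpow hp (norm_nonneg (V x - ∇ v₀ x))
      nlinarith
    have b2 : |ψ x * ⟪a x (W x) - a₀ (W x), V x - W x⟫| ≤
        (1 + 2 ^ p) * (ε₂ + l) * H x + A.indicator (fun _ => Cl) x := by
      rw [abs_mul, abs_of_nonneg hψx.1]
      have h7 : ψ x * |⟪a x (W x) - a₀ (W x), V x - W x⟫| ≤
          ‖a x (W x) - a₀ (W x)‖ * ‖V x - W x‖ := by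
        have := abs_real_inner_le_norm (a x (W x) - a₀ (W x)) (V x - W x)
        calc ψ x * |⟪a x (W x) - a₀ (W x), V x - W x⟫| ≤
            1 * |⟪a x (W x) - a₀ (W x), V x - W x⟫| :=
              mul_le_mul_of_nonneg_right hψx.2 (abs_nonneg _)
          _ ≤ _ := by rw [one_mul]; exact this
      refine h7.trans ?_
      by_cases hxA : x ∈ A
      · rw [indicator_of_mem hxA]
        calc ‖a x (W x) - a₀ (W x)‖ * ‖V x - W x‖ ≤ K₀ * ‖V x - W x‖ :=
              mul_le_mul_of_nonneg_right (h4 x hx) (norm_nonneg _)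
          _ ≤ l * ‖V x - W x‖ ^ p + Cl := h5 _ (norm_nonneg _)
          _ ≤ l * (2 ^ p * H x) + Cl := by
              have := mul_le_mul_of_nonneg_left xp hl
              linarith
          _ ≤ (1 + 2 ^ p) * (ε₂ + l) * H x + Cl := by
              have h8 : 0 ≤ l * H x := by positivity
              have h9 : 0 ≤ ε₂ * H x := by positivity
              nlinarith
      · rw [indicator_of_notMem hxA, add_zero]
        calc ‖a x (W x) - a₀ (W x)‖ * ‖V x - W x‖ ≤ ε₂ * ((1 + 2 ^ p) * H x) :=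
              mul_le_mul (h3 x hx hxA) hV1 (norm_nonneg _) hε₂
          _ ≤ (1 + 2 ^ p) * (ε₂ + l) * H x := by
              have h8 : 0 ≤ l * H x := by positivity
              nlinarith
    have b3 : |⟪ψ x • a₀ (W x) - g x, V x - ∇ v₀ x⟫| ≤ (1 + 2 ^ p) * ε₁ * H x := by
      calc |⟪ψ x • a₀ (W x) - g x, V x - ∇ v₀ x⟫| ≤
          ‖ψ x • a₀ (W x) - g x‖ * ‖V x - ∇ v₀ x‖ := abs_real_inner_le_norm _ _
        _ ≤ ε₁ * ((1 + 2 ^ p) * H x) := mul_le_mul (h2 x) hV2 (norm_nonneg _) hε₁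
        _ = _ := by ring
    -- the identity
    have id1 : ⟪a x (V x), (v' x - (v₀ x + t * φ x)) • ∇ ψ x + ψ x • (V x - W x)⟫ =
        (v' x - v₀ x) * ⟪a x (V x), ∇ ψ x⟫ + ψ x * ⟪a x (V x), V x - W x⟫ := by
      rw [e1, inner_add_right, inner_smul_right, inner_smul_right]
    have id2 : ψ x * ⟪a x (V x) - a x (W x), V x - W x⟫ =
        ψ x * ⟪a x (V x), V x - W x⟫ - ψ x * ⟪a x (W x) - a₀ (W x), V x - W x⟫ -
          ψ x * ⟪a₀ (W x), V x - W x⟫ := by
      rw [inner_sub_left, inner_sub_left]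
      ring
    have id3 : ψ x * ⟪a₀ (W x), V x - W x⟫ =
        ⟪ψ x • a₀ (W x) - g x, V x - ∇ v₀ x⟫ + ⟪g x, V x - ∇ v₀ x⟫ -
          t * ⟪a₀ (W x), ∇ φ x⟫ := by
      have e2 : V x - W x = (V x - ∇ v₀ x) - t • ∇ φ x := by
        show V x - (∇ v₀ x + t • ∇ φ x) = _
        abel
      have e3 : ⟪a₀ (W x), ∇ φ x⟫ = ψ x * ⟪a₀ (W x), ∇ φ x⟫ := by
        rw [← inner_smul_right, hψφ x]
      rw [inner_sub_left, inner_smul_left]
      simp only [conj_trivial]
      rw [e3, e2, inner_sub_right (a₀ (W x)) (V x - ∇ v₀ x), inner_smul_right]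
      ring
    have c1 := (abs_le.1 b1).1
    have c2 := (abs_le.1 b2).1
    have c3 := (abs_le.1 b3).1
    have c4 : (δ * β * G + (1 + 2 ^ p) * (ε₁ + ε₂ + l)) * H x =
        δ * β * G * H x + (1 + 2 ^ p) * (ε₂ + l) * H x + (1 + 2 ^ p) * ε₁ * H x := by ring
    rw [id1, c4]
    linarith
  -- integration
  have hφi : Integrable (fun x => -t * ⟪a₀ (W x), ∇ φ x⟫) (volume.restrict B) := by
    have h6 : Continuous fun x => -t * ⟪a₀ (W x), ∇ φ x⟫ :=
      continuous_const.mul ((ha₀.comp hWc).inner (continuous_grad hφ.1))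
    exact (h6.continuousOn.integrableOn_compact (isCompact_closedBall (0 : E n) ρ))
  have i1 : Integrable (fun x => ⟪a x (V x), (v' x - (v₀ x + t * φ x)) • ∇ ψ x +
      ψ x • (V x - W x)⟫ - ⟪g x, V x - ∇ v₀ x⟫) (volume.restrict B) := hE2.sub hgi
  have i2 : Integrable (fun x => (δ * β * G + (1 + 2 ^ p) * (ε₁ + ε₂ + l)) * H x)
      (volume.restrict B) := hHi.const_mul _
  have i3 : Integrable (fun x => (δ * β * G + (1 + 2 ^ p) * (ε₁ + ε₂ + l)) * H x +
      A.indicator (fun _ => Cl) x) (volume.restrict B) := i2.add hAi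
  have hfin2 : ∫ x in B, -t * ⟪a₀ (W x), ∇ φ x⟫ ≤
      ∫ x in B, (⟪a x (V x), (v' x - (v₀ x + t * φ x)) • ∇ ψ x + ψ x • (V x - W x)⟫ -
        ⟪g x, V x - ∇ v₀ x⟫ +
        ((δ * β * G + (1 + 2 ^ p) * (ε₁ + ε₂ + l)) * H x + A.indicator (fun _ => Cl) x)) :=
    integral_mono_ae hφi (i1.add i3) ((ae_restrict_iff' hBm).2 (Eventually.of_forall hpt))
  have hs0 : ∫ x in B, -t * ⟪a₀ (W x), ∇ φ x⟫ = -t * ∫ x, ⟪a₀ (W x), ∇ φ x⟫ := by
    rw [integral_const_mul, setIntegral_eq_integral_of_forall_compl_eq_zero]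
    intro x hx
    have hx1 : x ∉ tsupport ψ := fun h => hx (hψs h)
    rw [← hψφ x, image_eq_zero_of_notMem_tsupport hx1, zero_smul, inner_zero_right]
  have hs1 : ∫ x in B, (⟪a x (V x), (v' x - (v₀ x + t * φ x)) • ∇ ψ x + ψ x • (V x - W x)⟫ -
        ⟪g x, V x - ∇ v₀ x⟫ +
        ((δ * β * G + (1 + 2 ^ p) * (ε₁ + ε₂ + l)) * H x + A.indicator (fun _ => Cl) x)) =
      -(∫ x in B, ⟪g x, V x - ∇ v₀ x⟫) +
        ((δ * β * G + (1 + 2 ^ p) * (ε₁ + ε₂ + l)) * (∫ x in B, H x) +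
          Cl * volume.real (A ∩ B)) := by
    rw [integral_add i1 i3, integral_sub hE2 hgi, hE1, integral_add i2 hAi, integral_const_mul,
      integral_indicator hA, setIntegral_const, smul_eq_mul, zero_sub]
    congr 2
    rw [mul_comm, measureReal_def, Measure.restrict_apply hA, ← measureReal_def]
  rw [hs0] at hfin2
  exact (hfin2.trans (le_of_eq hs1)).trans (add_le_add hF le_rfl)


/-! ### STAB -/

theorem stab (hcut : CutStatement) (hC : ChainStatement) (hP : PairStatement)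
    (hI : IntgStatement) (hL : LsobStatement) : StabStatement := by
  intro n p b α β x₀ s v₀ hn hop hleb hs hv₀ hyp φ hφ
  have hp := hop.hp
  have hβ : 0 ≤ β := (hop.hα.le).trans hop.hαβ
  -- radii
  obtain ⟨s₁, hs₁, hφs⟩ := exists_pos_lt_subset_ball hs (isClosed_tsupport φ) hφ.2.2
  have hs₁0 : 0 < s₁ := hs₁.1
  have hs₁1 : s₁ < s := hs₁.2
  obtain ⟨s₂, hs₂, hs₂'⟩ := exists_between hs₁1
  obtain ⟨ρ, hρ, hρ'⟩ := exists_between hs₂'
  obtain ⟨s₄, hs₄, hs₄'⟩ := exists_between hρ'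
  have hs₂0 : 0 < s₂ := hs₁0.trans hs₂
  have hρ0 : 0 < ρ := hs₂0.trans hρ
  have hs₄0 : 0 < s₄ := hρ0.trans hs₄
  obtain ⟨Cc, hCc, hcut'⟩ := hcut n
  obtain ⟨ψ, hψ, hψ1, hψ2, hψs, hψG⟩ := hcut' 0 s₂ ρ hs₂0 hρ
  obtain ⟨η, hη, hη1, hη2, hηs, hηG⟩ := hcut' 0 ρ s₄ hρ0 hs₄
  have hG0 : 0 ≤ Cc / (ρ - s₂) := div_nonneg hCc.le (by linarith)
  have hψφ : ∀ x, ψ x • ∇ φ x = ∇ φ x := by
    intro x
    by_cases hx : x ∈ tsupport φ
    · rw [hψ2 x (ball_subset_closedBall (ball_subset_ball hs₂.le (hφs hx))), one_smul]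
    · rw [grad_eq_zero_of_notMem hx, smul_zero]
  have hφψ : ∀ x, φ x • ∇ ψ x = 0 := by
    intro x
    by_cases hx : x ∈ tsupport φ
    · have h1 : ψ =ᶠ[𝓝 x] fun _ => 1 := by
        filter_upwards [isOpen_ball.mem_nhds (ball_subset_ball hs₂.le (hφs hx))] with y hy
        exact hψ2 y (ball_subset_closedBall hy)
      have h2 : ∇ ψ x = 0 := by
        rw [grad_eq, h1.fderiv_eq]
        simp
      rw [h2, smul_zero]
    · rw [image_eq_zero_of_notMem_tsupport hx, zero_smul]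
  -- bounds
  obtain ⟨M₀, hM₀⟩ := (isCompact_closedBall (0 : E n) s).exists_bound_of_continuousOn
    hv₀.continuous.continuousOn
  have hM₀0 : 0 ≤ M₀ := (norm_nonneg _).trans (hM₀ 0 (mem_closedBall_self hs.le))
  set M : ℝ := M₀ + 1 with hM
  have hM0 : 0 ≤ M := by positivity
  obtain ⟨Ca, hCa, hcacc⟩ := caccU (weak hC hP) hI n p α β hp hop.hα hop.hαβ
  set C₁ : ℝ := Ca * (M ^ p * ∫ x, ‖∇ η x‖ ^ p) with hC₁
  -- the energy bound
  have henergy : ∀ (r δ : ℝ) (v : E n → ℝ), δ ≤ 1 →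
      Harm volume p (fun y ξ => b (x₀ + r • y) ξ) (ball 0 s) v →
      (∀ y ∈ ball (0 : E n) s, |v y - v₀ y| ≤ δ) →
      ∃ (D : Set (E n)) (V : E n → E n) (v' : E n → ℝ), D ⊆ ball 0 s ∧ closedBall 0 ρ ⊆ D ∧
        BSol volume p (fun y ξ => b (x₀ + r • y) ξ) D v' V (-M) M ∧
        (∀ x ∈ closedBall (0 : E n) ρ, |v' x - v₀ x| ≤ δ) ∧
        ∫ x in closedBall (0 : E n) ρ, ‖V x‖ ^ p ≤ C₁ := by
    intro r δ v hδ hv hvδ
    obtain ⟨D, V, v', hD1, hD2, hv', hB⟩ := Pool.Agent.Lib.MP_abd978_an.H42.exists_bsol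
      (U := ball 0 s) isOpen_ball hv hs₄0 (closedBall_subset_ball hs₄') (c := -M) (d := M)
      (by linarith) (by
        intro δ' _ hδ' x hx
        have h1 := hvδ x (hδ' hx)
        have h2 := hM₀ x (ball_subset_closedBall (hδ' hx))
        rw [Real.norm_eq_abs] at h2
        have h3 := abs_le.1 h1
        have h4 := abs_le.1 h2
        constructor <;> linarith)
    have hρD : closedBall (0 : E n) ρ ⊆ D := (closedBall_subset_closedBall hs₄.le).trans hD2
    refine ⟨D, V, v', hD1, hρD, hB, fun x hx => ?_, ?_⟩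
    · rw [hv' x (hρD hx)]
      exact hvδ x (hD1 (hρD hx))
    · have hηD : Test D η := ⟨hη.1, hη.2.1, hηs.trans hD2⟩
      have h1 := hcacc volume _ (op_scale x₀ r hop) D v' V (-M) M (fun t => t) η hB
        ⟨univ, isOpen_univ, subset_univ _, contDiff_id.contDiffOn⟩ (fun t _ => by simp) hηD hη1
      have hd : ∀ t : ℝ, deriv (fun t : ℝ => t) t = 1 := fun t => by simp
      simp only [hd, one_mul, Real.one_rpow, mul_one] at h1
      have hp0 : ENNReal.ofReal p ≠ 0 := by
        intro h0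
        have := one_le_ofReal hp
        rw [h0] at this
        simp at this
      have hgi : Integrable (fun x => ‖∇ η x‖ ^ p) volume := by
        have h2 := (hη.memLp_grad (μ := (volume : Measure (E n)))
          (ENNReal.ofReal p)).integrable_norm_rpow hp0 ENNReal.ofReal_ne_top
        rwa [ENNReal.toReal_ofReal (by linarith)] at h2
      have hVi : Integrable (fun x => ‖V x‖ ^ p) (volume.restrict D) := by
        have h2 := hB.sob.2.1.integrable_norm_rpow hp0 ENNReal.ofReal_ne_top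
        rwa [ENNReal.toReal_ofReal (by linarith)] at h2
      have h2 : ∫ x, |v' x| ^ p * ‖∇ η x‖ ^ p ≤ M ^ p * ∫ x, ‖∇ η x‖ ^ p := by
        rw [← integral_const_mul]
        refine integral_mono_of_nonneg (Eventually.of_forall fun x => by positivity)
          (hgi.const_mul _) (Eventually.of_forall fun x => ?_)
        refine mul_le_mul_of_nonneg_right ?_ (Real.rpow_nonneg (norm_nonneg _) _)
        exact Real.rpow_le_rpow (abs_nonneg _) (abs_le.2 (hB.mem x)) (by linarith)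
      have h3 : ∫ x in closedBall (0 : E n) ρ, ‖V x‖ ^ p ≤
          ∫ x, η x ^ ⌈p⌉₊ * ‖V x‖ ^ p := by
        have h4 : Integrable (fun x => η x ^ ⌈p⌉₊ * ‖V x‖ ^ p) volume := by
          apply int_of_on (D := D)
          · refine hVi.bdd_mul (hη.1.continuous.pow _).aestronglyMeasurable (c := 1)
              (Eventually.of_forall fun x => ?_)
            rw [Real.norm_eq_abs, abs_of_nonneg (pow_nonneg (hη1 x).1 _)]
            exact pow_le_one₀ (hη1 x).1 (hη1 x).2
          · intro x hx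
            have h5 : η x = 0 := image_eq_zero_of_notMem_tsupport fun h => hx (hηD.2.2 h)
            have h6 : ⌈p⌉₊ ≠ 0 := by
              intro h7
              have := Nat.le_ceil p
              rw [h7] at this
              simp at this
              linarith
            rw [h5, zero_pow h6, zero_mul]
        calc ∫ x in closedBall (0 : E n) ρ, ‖V x‖ ^ p
            = ∫ x in closedBall (0 : E n) ρ, η x ^ ⌈p⌉₊ * ‖V x‖ ^ p := by
              refine setIntegral_congr_fun isClosed_closedBall.measurableSet fun x hx => ?_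
              show ‖V x‖ ^ p = η x ^ ⌈p⌉₊ * ‖V x‖ ^ p
              rw [hη2 x hx, one_pow, one_mul]
          _ ≤ _ := setIntegral_le_integral h4 (Eventually.of_forall fun x =>
              mul_nonneg (pow_nonneg (hη1 x).1 _) (Real.rpow_nonneg (norm_nonneg _) _))
      calc ∫ x in closedBall (0 : E n) ρ, ‖V x‖ ^ p ≤ ∫ x, η x ^ ⌈p⌉₊ * ‖V x‖ ^ p := h3
        _ ≤ Ca * ∫ x, |v' x| ^ p * ‖∇ η x‖ ^ p := h1
        _ ≤ C₁ := mul_le_mul_of_nonneg_left h2 hCa.le
  -- the inequality for fixed `t`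
  set a₀ : E n → E n := b x₀ with ha₀
  have ha₀c : Continuous a₀ := hop.cont x₀
  have hφ' : Test univ φ := hφ.mono (subset_univ _)
  have hB : IsCompact (closedBall (0 : E n) ρ) := isCompact_closedBall 0 ρ
  have hgv : Continuous fun x => ∇ v₀ x := continuous_grad1 hv₀
  have hgφ : Continuous fun x => ∇ φ x := continuous_grad hφ.1
  have key : ∀ t : ℝ, 0 ≤ t * ∫ x, ⟪a₀ (∇ v₀ x + t • ∇ φ x), ∇ φ x⟫ := by
    intro t
    have hWc : Continuous fun x => ∇ v₀ x + t • ∇ φ x := hgv.add (hgφ.const_smul t)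
    obtain ⟨K₁, hK₁⟩ := hB.exists_bound_of_continuousOn hWc.continuousOn
    obtain ⟨K₂, hK₂⟩ := hB.exists_bound_of_continuousOn hgv.continuousOn
    have h0B : (0 : E n) ∈ closedBall (0 : E n) ρ := mem_closedBall_self hρ0.le
    have hK₁0 : 0 ≤ K₁ := (norm_nonneg _).trans (hK₁ 0 h0B)
    have hK₂0 : 0 ≤ K₂ := (norm_nonneg _).trans (hK₂ 0 h0B)
    set K₀ : ℝ := 2 * (β * K₁ ^ (p - 1)) with hK₀
    have hK₀0 : 0 ≤ K₀ := by positivity
    set vB : ℝ := volume.real (closedBall (0 : E n) ρ) with hvB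
    set S : ℝ := vB * (1 + K₁ ^ p + K₂ ^ p) + |C₁| with hS
    have hvB0 : 0 ≤ vB := measureReal_nonneg
    have hS0 : 0 ≤ S := by positivity
    by_contra hneg
    push Not at hneg
    set ε : ℝ := -(t * ∫ x, ⟪a₀ (∇ v₀ x + t • ∇ φ x), ∇ φ x⟫) with hε
    have hε0 : 0 < ε := by linarith
    set κ : ℝ := ε / (4 * ((1 + 2 ^ p) * 3 * S + 1)) with hκ
    have h2p : (0 : ℝ) < 2 ^ p := by positivity
    have hκ0 : 0 < κ := by positivity
    have hκ1 : (1 + 2 ^ p) * (κ + κ + κ) * S ≤ ε / 4 := by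
      rw [hκ]
      have h1 : 0 < (1 + 2 ^ p) * 3 * S + 1 := by positivity
      have h2 : (1 + 2 ^ p) * (ε / (4 * ((1 + 2 ^ p) * 3 * S + 1)) +
          ε / (4 * ((1 + 2 ^ p) * 3 * S + 1)) + ε / (4 * ((1 + 2 ^ p) * 3 * S + 1))) * S =
          (ε / 4) * (((1 + 2 ^ p) * 3 * S) / ((1 + 2 ^ p) * 3 * S + 1)) := by
        field_simp
        ring
      rw [h2]
      refine mul_le_of_le_one_right (by positivity) ?_
      rw [div_le_one h1]
      linarith
    obtain ⟨Cl, hCl, hlin⟩ := linear_le hp hK₀0 hκ0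
    -- the smooth field
    obtain ⟨g, hg, hg1, hg2⟩ := Continuous.exists_contDiff_approx (n := ⊤)
      (f := fun x => ψ x • a₀ (∇ v₀ x + t • ∇ φ x)) (ε := fun _ => κ)
      (hψ.1.continuous.smul (ha₀c.comp hWc)) continuous_const (fun _ => hκ0)
    have hgs : Function.support g ⊆ tsupport ψ := by
      refine hg2.trans fun x hx => ?_
      refine subset_tsupport ψ fun h => hx ?_
      show ψ x • a₀ (∇ v₀ x + t • ∇ φ x) = 0
      rw [h, zero_smul]
    set Sg : ℝ := ∑ j, ∫ x, ‖∇ (fun y => g y j) x‖ with hSg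
    have hSg0 : 0 ≤ Sg := Finset.sum_nonneg fun j _ => integral_nonneg fun x => norm_nonneg _
    set δ : ℝ := min 1 (ε / (4 * (Sg + β * (Cc / (ρ - s₂)) * S + 1))) with hδ
    have hden : 0 < Sg + β * (Cc / (ρ - s₂)) * S + 1 := by positivity
    have hδ0 : 0 < δ := lt_min one_pos (by positivity)
    have hδ1 : δ * (Sg + β * (Cc / (ρ - s₂)) * S) ≤ ε / 4 := by
      calc δ * (Sg + β * (Cc / (ρ - s₂)) * S) ≤
          (ε / (4 * (Sg + β * (Cc / (ρ - s₂)) * S + 1))) *
            (Sg + β * (Cc / (ρ - s₂)) * S + 1) := by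
            refine mul_le_mul (min_le_right _ _) (by linarith) (by positivity) (by positivity)
        _ = ε / 4 := by
            generalize Sg + β * (Cc / (ρ - s₂)) * S + 1 = X at hden
            field_simp
    -- the bad set
    have hbad := hleb s K₁ κ hκ0
    have hpos : (0 : ℝ≥0∞) < ENNReal.ofReal (ε / (4 * (Cl + 1))) := by
      rw [ENNReal.ofReal_pos]
      positivity
    have hev := (hbad.eventually (gt_mem_nhds hpos)).and (hyp δ hδ0)
    obtain ⟨r, hr1, v, hv, hvδ⟩ := hev.exists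
    set A₀ : Set (E n) := {y : E n | y ∈ ball 0 s ∧
      ∃ ξ : E n, ‖ξ‖ ≤ K₁ ∧ κ ≤ ‖b (x₀ + r • y) ξ - b x₀ ξ‖} with hA₀
    set A : Set (E n) := toMeasurable volume A₀ with hA
    have hAm : MeasurableSet A := measurableSet_toMeasurable _ _
    have hAv : volume.real (A ∩ closedBall 0 ρ) ≤ ε / (4 * (Cl + 1)) := by
      have h1 : volume (A ∩ closedBall 0 ρ) ≤ ENNReal.ofReal (ε / (4 * (Cl + 1))) := by
        refine (measure_mono inter_subset_left).trans ?_
        rw [hA, measure_toMeasurable]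
        exact hr1.le
      rw [measureReal_def]
      refine (ENNReal.toReal_mono ENNReal.ofReal_ne_top h1).trans ?_
      rw [ENNReal.toReal_ofReal (by positivity)]
    obtain ⟨D, V, v', hD1, hD2, hBS, hv', hen⟩ := henergy r δ v (min_le_left _ _) hv hvδ
    have hop' := op_scale x₀ r hop
    have h := est hC hP hI hL hop' hBS hD2 hD1 hv₀ hφ' hψ hψ1 hψs hψφ hφψ hψG hg hgs ha₀c
      (t := t) (δ := δ) (ε₁ := κ) (ε₂ := κ) (l := κ) (Cl := Cl) (K₀ := K₀) hAm hδ0.le hκ0.le
      hκ0.le hκ0.le hCl hG0 hv' (fun x => by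
        rw [← dist_eq_norm, dist_comm]
        exact (hg1 x).le)
      (fun x hx hxA => by
        by_contra hcon
        push Not at hcon
        exact hxA (subset_toMeasurable _ _ ⟨hD1 (hD2 hx), _, hK₁ x hx, hcon.le⟩))
      (fun x hx => by
        have h1 := hop.bdd (x₀ + r • x) (∇ v₀ x + t • ∇ φ x)
        have h2 := hop.bdd x₀ (∇ v₀ x + t • ∇ φ x)
        have h3 : ‖∇ v₀ x + t • ∇ φ x‖ ^ (p - 1) ≤ K₁ ^ (p - 1) :=
          Real.rpow_le_rpow (norm_nonneg _) (hK₁ x hx) (by linarith)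
        have h4 := mul_le_mul_of_nonneg_left h3 hβ
        refine (norm_sub_le _ _).trans ?_
        rw [hK₀]
        linarith)
      hlin
    -- the integral of `H`
    have hfin : IsFiniteMeasure ((volume : Measure (E n)).restrict (closedBall (0 : E n) ρ)) :=
      ⟨by rw [Measure.restrict_apply_univ]; exact measure_closedBall_lt_top⟩
    have hp0 : ENNReal.ofReal p ≠ 0 := by
      intro h0
      have := one_le_ofReal hp
      rw [h0] at this
      simp at this
    have hVi : Integrable (fun x => ‖V x‖ ^ p) (volume.restrict (closedBall (0 : E n) ρ)) := by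
      have h2 := (hBS.sob.2.1.mono_measure (Measure.restrict_mono hD2
        le_rfl)).integrable_norm_rpow hp0 ENNReal.ofReal_ne_top
      rwa [ENNReal.toReal_ofReal (by linarith)] at h2
    have hint : ∫ x in closedBall (0 : E n) ρ,
        (1 + ‖V x‖ ^ p + ‖∇ v₀ x + t • ∇ φ x‖ ^ p + ‖∇ v₀ x‖ ^ p) ≤ S := by
      have h1 : ∀ x ∈ closedBall (0 : E n) ρ,
          1 + ‖V x‖ ^ p + ‖∇ v₀ x + t • ∇ φ x‖ ^ p + ‖∇ v₀ x‖ ^ p ≤
            ‖V x‖ ^ p + (1 + K₁ ^ p + K₂ ^ p) := by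
        intro x hx
        have h2 : ‖∇ v₀ x + t • ∇ φ x‖ ^ p ≤ K₁ ^ p :=
          Real.rpow_le_rpow (norm_nonneg _) (hK₁ x hx) (by linarith)
        have h3 : ‖∇ v₀ x‖ ^ p ≤ K₂ ^ p :=
          Real.rpow_le_rpow (norm_nonneg _) (hK₂ x hx) (by linarith)
        linarith
      have h2 : ∫ x in closedBall (0 : E n) ρ, (‖V x‖ ^ p + (1 + K₁ ^ p + K₂ ^ p)) =
          (∫ x in closedBall (0 : E n) ρ, ‖V x‖ ^ p) + vB * (1 + K₁ ^ p + K₂ ^ p) := by
        rw [integral_add hVi (integrable_const _), setIntegral_const, smul_eq_mul]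
      calc _ ≤ ∫ x in closedBall (0 : E n) ρ, (‖V x‖ ^ p + (1 + K₁ ^ p + K₂ ^ p)) := by
            refine integral_mono_of_nonneg (Eventually.of_forall fun x => ?_)
              (hVi.add (integrable_const _)) ?_
            · have e1 : 0 ≤ ‖V x‖ ^ p := Real.rpow_nonneg (norm_nonneg _) _
              have e2 : 0 ≤ ‖∇ v₀ x + t • ∇ φ x‖ ^ p := Real.rpow_nonneg (norm_nonneg _) _
              have e3 : 0 ≤ ‖∇ v₀ x‖ ^ p := Real.rpow_nonneg (norm_nonneg _) _
              show (0 : ℝ) ≤ 1 + ‖V x‖ ^ p + ‖∇ v₀ x + t • ∇ φ x‖ ^ p + ‖∇ v₀ x‖ ^ p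
              linarith
            · exact (ae_restrict_iff' isClosed_closedBall.measurableSet).2
                (Eventually.of_forall h1)
        _ = _ := h2
        _ ≤ S := by
            rw [hS]
            have := le_abs_self C₁
            linarith
    have hb1 : (δ * β * (Cc / (ρ - s₂)) + (1 + 2 ^ p) * (κ + κ + κ)) *
        (∫ x in closedBall (0 : E n) ρ,
          (1 + ‖V x‖ ^ p + ‖∇ v₀ x + t • ∇ φ x‖ ^ p + ‖∇ v₀ x‖ ^ p)) ≤
        (δ * β * (Cc / (ρ - s₂)) + (1 + 2 ^ p) * (κ + κ + κ)) * S :=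
      mul_le_mul_of_nonneg_left hint (by positivity)
    have hb2 : Cl * volume.real (A ∩ closedBall 0 ρ) ≤ ε / 4 := by
      calc Cl * volume.real (A ∩ closedBall 0 ρ) ≤ (Cl + 1) * (ε / (4 * (Cl + 1))) :=
            mul_le_mul (by linarith) hAv measureReal_nonneg (by linarith)
        _ = ε / 4 := by field_simp
    have hb3 : -t * ∫ x, ⟪a₀ (∇ v₀ x + t • ∇ φ x), ∇ φ x⟫ = ε := by
      rw [hε]
      ring
    have h' : ε ≤ δ * Sg + ((δ * β * (Cc / (ρ - s₂)) + (1 + 2 ^ p) * (κ + κ + κ)) * S +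
        ε / 4) := by
      rw [hb3] at h
      exact h.trans (add_le_add le_rfl (add_le_add hb1 hb2))
    have hb4 : δ * (Sg + β * (Cc / (ρ - s₂)) * S) = δ * Sg + δ * β * (Cc / (ρ - s₂)) * S := by
      ring
    linarith
  -- the limit `t → 0`
  have hcont : Continuous fun t : ℝ => ∫ x, ⟪a₀ (∇ v₀ x + t • ∇ φ x), ∇ φ x⟫ := by
    have h1 : (fun t : ℝ => ∫ x, ⟪a₀ (∇ v₀ x + t • ∇ φ x), ∇ φ x⟫) =
        fun t : ℝ => ∫ x in closedBall (0 : E n) ρ, ⟪a₀ (∇ v₀ x + t • ∇ φ x), ∇ φ x⟫ := by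
      funext t
      symm
      apply setIntegral_eq_integral_of_forall_compl_eq_zero
      intro x hx
      have hx1 : x ∉ tsupport φ := fun h => hx (ball_subset_closedBall (ball_subset_ball
        (hs₂.trans hρ).le (hφs h)))
      rw [grad_eq_zero_of_notMem hx1, inner_zero_right]
    rw [h1]
    refine continuous_parametric_integral_of_continuous ?_ hB
    have h2 : Continuous fun q : ℝ × E n => ∇ v₀ q.2 + q.1 • ∇ φ q.2 :=
      (hgv.comp continuous_snd).add (continuous_fst.smul (hgφ.comp continuous_snd))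
    exact (ha₀c.comp h2).inner (hgφ.comp continuous_snd)
  have hz : (∫ x, ⟪a₀ (∇ v₀ x + (0 : ℝ) • ∇ φ x), ∇ φ x⟫) = ∫ x, ⟪a₀ (∇ v₀ x), ∇ φ x⟫ := by
    simp
  have hpos : 0 ≤ ∫ x, ⟪a₀ (∇ v₀ x + (0 : ℝ) • ∇ φ x), ∇ φ x⟫ := by
    have h1 : Tendsto (fun t : ℝ => ∫ x, ⟪a₀ (∇ v₀ x + t • ∇ φ x), ∇ φ x⟫) (𝓝[>] 0)
        (𝓝 (∫ x, ⟪a₀ (∇ v₀ x + (0 : ℝ) • ∇ φ x), ∇ φ x⟫)) :=
      (hcont.tendsto 0).mono_left nhdsWithin_le_nhds
    refine ge_of_tendsto h1 ?_
    filter_upwards [self_mem_nhdsWithin] with t ht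
    exact nonneg_of_mul_nonneg_right (key t) ht
  have hneg : ∫ x, ⟪a₀ (∇ v₀ x + (0 : ℝ) • ∇ φ x), ∇ φ x⟫ ≤ 0 := by
    have h1 : Tendsto (fun t : ℝ => ∫ x, ⟪a₀ (∇ v₀ x + t • ∇ φ x), ∇ φ x⟫) (𝓝[<] 0)
        (𝓝 (∫ x, ⟪a₀ (∇ v₀ x + (0 : ℝ) • ∇ φ x), ∇ φ x⟫)) :=
      (hcont.tendsto 0).mono_left nhdsWithin_le_nhds
    refine le_of_tendsto h1 ?_
    filter_upwards [self_mem_nhdsWithin] with t ht
    have h2 := key t
    have ht' : t < 0 := ht
    by_contra hcon
    push Not at hcon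
    nlinarith
  rw [← hz]
  exact le_antisymm hneg hpos

end Pool.Agent.Lib.MP_abd978_an.UN.H92
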